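import Mathlib
import Pool.Agent.H451R2.Niche.Main

/-!
A graph on eight vertices with niche number three.
-/

set_option autoImplicit false

namespace Pool.Agent.Results.MP_e11724_co.NicheThree

/-- a digraph (arcs `A x y`, `x` preys on `y`) is acyclic: it has no directed cycle -/
def Acyclic {V : Type} (A : V → V → Prop) : Prop := ∀ v, ¬ Relation.TransGen A v v

/-- the niche graph of the digraph `A` -/
def nicheGraph {V : Type} (A : V → V → Prop) : SimpleGraph V where
  Adj x y := x ≠ y ∧ ((∃ a, A x a ∧ A y a) ∨ ∃ b, A b x ∧ A b y)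
  symm := ⟨by
    rintro x y ⟨h, h1 | h1⟩
    · obtain ⟨a, h2, h3⟩ := h1
      exact ⟨h.symm, Or.inl ⟨a, h3, h2⟩⟩
    · obtain ⟨a, h2, h3⟩ := h1
      exact ⟨h.symm, Or.inr ⟨a, h3, h2⟩⟩⟩
  loopless := ⟨fun x h => h.1 rfl⟩

/-- `H` is a niche graph: it is isomorphic to the niche graph of a finite acyclic digraph -/
def IsNiche {W : Type} (H : SimpleGraph W) : Prop :=
  ∃ (V : Type) (A : V → V → Prop), Finite V ∧ Acyclic A ∧ Nonempty (H ≃g nicheGraph A)

/-- the disjoint union of `G` with `k` isolated vertices -/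
def addIsolated {W : Type} (G : SimpleGraph W) (k : ℕ) : SimpleGraph (W ⊕ Fin k) where
  Adj u v := ∃ x y, u = Sum.inl x ∧ v = Sum.inl y ∧ G.Adj x y
  symm := ⟨by
    rintro u v ⟨x, y, h1, h2, h3⟩
    exact ⟨y, x, h2, h1, h3.symm⟩⟩
  loopless := ⟨by
    rintro u ⟨x, y, h1, h2, h3⟩
    rw [h1] at h2
    have : x = y := Sum.inl.inj h2
    rw [this] at h3
    exact G.loopless.irrefl y h3⟩

/-- the niche number: the least `k` such that `G ∪ I_k` is a niche graph, `⊤` if there is none -/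
noncomputable def nicheNumber {W : Type} (G : SimpleGraph W) : ℕ∞ :=
  sInf {m : ℕ∞ | ∃ k : ℕ, m = k ∧ IsNiche (addIsolated G k)}

/-- the edges of the graph `G0` -/
def edges : List (ℕ × ℕ) :=
  [(0, 1), (0, 2), (0, 6), (1, 3), (1, 7), (2, 4), (2, 7), (3, 5), (3, 6), (4, 6), (4, 7), (5, 6),
    (5, 7)]

/-- the graph with vertices `0, ..., 7` and the thirteen listed edges -/
def G0 : SimpleGraph (Fin 8) where
  Adj i j := ((i : ℕ), (j : ℕ)) ∈ edges ∨ ((j : ℕ), (i : ℕ)) ∈ edges
  symm := ⟨by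
    rintro i j (h | h)
    · exact Or.inr h
    · exact Or.inl h⟩
  loopless := ⟨by decide⟩

instance : DecidableRel G0.Adj := fun i j =>
  inferInstanceAs (Decidable (((i : ℕ), (j : ℕ)) ∈ edges ∨ ((j : ℕ), (i : ℕ)) ∈ edges))

/-! ### upper bound -/

def code3 : Fin 8 ⊕ Fin 3 → ℕ := Sum.elim (fun i => (i : ℕ)) (fun i => 8 + (i : ℕ))

def arcs : List (ℕ × ℕ) :=
  [(0, 1), (0, 7), (1, 9), (2, 0), (2, 1), (3, 9), (4, 2), (5, 10), (6, 2), (6, 4), (6, 7),
    (7, 10), (8, 3), (8, 5), (8, 6)]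

def rk (n : ℕ) : ℕ := [5, 6, 4, 1, 3, 1, 2, 6, 0, 7, 7].getD n 0

def A3 (u v : Fin 8 ⊕ Fin 3) : Prop := (code3 u, code3 v) ∈ arcs

instance : DecidableRel A3 := fun u v => inferInstanceAs (Decidable ((code3 u, code3 v) ∈ arcs))

instance decAdd : DecidableRel (addIsolated G0 3).Adj := fun u v =>
  inferInstanceAs (Decidable (∃ x y, u = Sum.inl x ∧ v = Sum.inl y ∧ G0.Adj x y))

instance decNiche : DecidableRel (nicheGraph A3).Adj := fun x y =>
  inferInstanceAs (Decidable (x ≠ y ∧ ((∃ a, A3 x a ∧ A3 y a) ∨ ∃ b, A3 b x ∧ A3 b y)))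

lemma A3_acyclic : Acyclic A3 := by
  have h0 : ∀ p ∈ arcs, rk p.1 < rk p.2 := by decide
  have h1 : ∀ u v, Relation.TransGen A3 u v → rk (code3 u) < rk (code3 v) := by
    intro u v h
    induction h with
    | single h => exact h0 _ h
    | tail _ h ih => exact ih.trans (h0 _ h)
  intro v h
  exact lt_irrefl _ (h1 v v h)

lemma A3_adj : ∀ u v : Fin 8 ⊕ Fin 3, (addIsolated G0 3).Adj u v ↔ (nicheGraph A3).Adj u v := by
  decide +kernel

lemma niche3 : IsNiche (addIsolated G0 3) := by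
  refine ⟨Fin 8 ⊕ Fin 3, A3, inferInstance, A3_acyclic, ⟨?_⟩⟩
  have h : addIsolated G0 3 = nicheGraph A3 := by
    ext u v
    exact A3_adj u v
  rw [h]

/-! ### lower bound -/

open Pool.Agent.H451R2.Niche in
lemma not_niche (k : ℕ) (hk : k ≤ 2) : ¬ IsNiche (addIsolated G0 k) := by
  rintro ⟨V, A, -, hac, ⟨e⟩⟩
  classical
  let g : ℕ → Option V := fun i =>
    if h : i < 8 then some (e (Sum.inl ⟨i, h⟩))
    else if h : i - 8 < k then some (e (Sum.inr ⟨i - 8, h⟩)) else none
  have g1 : ∀ i : Fin 8, g i = some (e (Sum.inl i)) := by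
    intro i
    simp only [g, i.2, dif_pos]
  have g2 : ∀ i : Fin k, g (8 + i) = some (e (Sum.inr i)) := by
    intro i
    have h1 : ¬ 8 + (i : ℕ) < 8 := by omega
    have h2 : 8 + (i : ℕ) - 8 = i := by omega
    have h3 : 8 + (i : ℕ) - 8 < k := by rw [h2]; exact i.2
    simp only [g, h1, dif_neg, not_false_eq_true, h3, dif_pos]
    congr 3
    exact Fin.ext h2
  have gsurj : ∀ a : V, ∃ z < 10, g z = some a := by
    intro a
    rcases h : e.symm a with i | i
    · refine ⟨i, by omega, ?_⟩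
      rw [g1, ← h]
      simp
    · refine ⟨8 + i, by omega, ?_⟩
      rw [g2, ← h]
      simp
  have gcase : ∀ x < 10, ∀ u, g x = some u →
      (∃ h : x < 8, e.symm u = Sum.inl ⟨x, h⟩) ∨
        (8 ≤ x ∧ ∃ i : Fin k, (i : ℕ) = x - 8 ∧ e.symm u = Sum.inr i) := by
    intro x _ u hu
    by_cases h : x < 8
    · left
      refine ⟨h, ?_⟩
      have : g x = some (e (Sum.inl ⟨x, h⟩)) := by simp only [g, h, dif_pos]
      rw [this] at hu
      have hu' := Option.some.inj hu
      rw [← hu']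
      simp
    · right
      refine ⟨by omega, ?_⟩
      by_cases h2 : x - 8 < k
      · refine ⟨⟨x - 8, h2⟩, rfl, ?_⟩
        have : g x = some (e (Sum.inr ⟨x - 8, h2⟩)) := by
          simp only [g, h, dif_neg, not_false_eq_true, h2, dif_pos]
        rw [this] at hu
        have hu' := Option.some.inj hu
        rw [← hu']
        simp
      · have : g x = none := by
          simp only [g, h, dif_neg, not_false_eq_true, h2]
        rw [this] at hu
        cases hu
  have ginj : ∀ x < 10, ∀ y < 10, ∀ u, g x = some u → g y = some u → x = y := by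
    intro x hx y hy u h1 h2
    rcases gcase x hx u h1 with ⟨h3, h4⟩ | ⟨h3, i, h4, h5⟩ <;>
      rcases gcase y hy u h2 with ⟨h6, h7⟩ | ⟨h6, j, h7, h8⟩
    · rw [h4] at h7
      have := Sum.inl.inj h7
      exact congrArg Fin.val this
    · rw [h4] at h8
      cases h8
    · rw [h5] at h7
      cases h7
    · rw [h5] at h8
      have := Sum.inr.inj h8
      rw [this] at h4
      omega
  let B : ℕ → ℕ → Prop := fun i j => ∃ u v, g i = some u ∧ g j = some v ∧ A u v
  have hB : ∀ i j, Relation.TransGen B i j →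
      ∃ u v, g i = some u ∧ g j = some v ∧ Relation.TransGen A u v := by
    intro i j h
    induction h with
    | single h =>
      obtain ⟨u, v, h1, h2, h3⟩ := h
      exact ⟨u, v, h1, h2, Relation.TransGen.single h3⟩
    | tail _ h ih =>
      obtain ⟨u, v, h1, h2, h3⟩ := ih
      obtain ⟨u', v', h1', h2', h3'⟩ := h
      have : v = u' := Option.some.inj (h2.symm.trans h1')
      subst this
      exact ⟨u, v', h1, h2', h3.tail h3'⟩
  refine no_rel B ?_ ?_ ?_
  · intro i h
    obtain ⟨u, v, h1, h2, h3⟩ := hB i i h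
    have : u = v := Option.some.inj (h1.symm.trans h2)
    subst this
    exact hac u h3
  · intro m hm
    have h8 := exy_lt8 m hm
    have hadj : G0.Adj ⟨ex m, h8.1⟩ ⟨ey m, h8.2⟩ := by
      left
      show (ex m, ey m) ∈ edges
      interval_cases m <;> decide
    have h1 : (addIsolated G0 k).Adj (Sum.inl ⟨ex m, h8.1⟩) (Sum.inl ⟨ey m, h8.2⟩) :=
      ⟨_, _, rfl, rfl, hadj⟩
    have h2 := e.map_adj_iff.mpr h1
    have gx : g (ex m) = some (e (Sum.inl ⟨ex m, h8.1⟩)) := g1 ⟨ex m, h8.1⟩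
    have gy : g (ey m) = some (e (Sum.inl ⟨ey m, h8.2⟩)) := g1 ⟨ey m, h8.2⟩
    rcases h2.2 with ⟨a, ha, hb⟩ | ⟨a, ha, hb⟩
    · obtain ⟨z, hz, hz'⟩ := gsurj a
      exact ⟨z, hz, Or.inl ⟨⟨_, _, gx, hz', ha⟩, ⟨_, _, gy, hz', hb⟩⟩⟩
    · obtain ⟨z, hz, hz'⟩ := gsurj a
      exact ⟨z, hz, Or.inr ⟨⟨_, _, hz', gx, ha⟩, ⟨_, _, hz', gy, hb⟩⟩⟩
  · intro x hx y hy hxy hn1 hn2 z hz
    have key : ∀ u v, g x = some u → g y = some v → ¬ (nicheGraph A).Adj u v := by
      intro u v hu hv hadj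
      have h1 : (addIsolated G0 k).Adj (e.symm u) (e.symm v) := by
        rw [← e.map_adj_iff]
        simpa using hadj
      obtain ⟨x', y', h2, h3, h4⟩ := h1
      rcases gcase x hx u hu with ⟨h5, h6⟩ | ⟨h5, i, h6, h7⟩
      · rcases gcase y hy v hv with ⟨h8, h9⟩ | ⟨h8, i, h9, h10⟩
        · rw [h6] at h2
          rw [h9] at h3
          have e1 := Sum.inl.inj h2
          have e2 := Sum.inl.inj h3
          rw [← e1, ← e2] at h4
          rcases h4 with h4 | h4
          · exact hn1 h4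
          · exact hn2 h4
        · rw [h10] at h3
          cases h3
      · rw [h7] at h2
        cases h2
    constructor
    · rintro ⟨⟨u, a, hu, ha, h1⟩, ⟨v, a', hv, ha', h2⟩⟩
      have : a = a' := Option.some.inj (ha.symm.trans ha')
      subst this
      refine key u v hu hv ⟨?_, Or.inl ⟨a, h1, h2⟩⟩
      rintro rfl
      exact hxy (ginj x hx y hy u hu hv)
    · rintro ⟨⟨a, u, ha, hu, h1⟩, ⟨a', v, ha', hv, h2⟩⟩
      have : a = a' := Option.some.inj (ha.symm.trans ha')
      subst this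
      refine key u v hu hv ⟨?_, Or.inr ⟨a, h1, h2⟩⟩
      rintro rfl
      exact hxy (ginj x hx y hy u hu hv)

/-- The graph `G0` (eight vertices, thirteen edges) has niche number three. -/
theorem result : nicheNumber G0 = 3 := by
  apply le_antisymm
  · apply sInf_le
    exact ⟨3, rfl, niche3⟩
  · apply le_sInf
    rintro m ⟨k, rfl, hk⟩
    by_contra hlt
    rw [not_le] at hlt
    have hk3 : k < 3 := by exact_mod_cast hlt
    exact not_niche k (by omega) hk

end Pool.Agent.Results.MP_e11724_co.NicheThree
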